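import Pool.Agent.Helper50_DP.Stmts

/-!
# Squad DP, module EXC: the exceptional curve
-/

set_option autoImplicit false

universe u

open MvPolynomial PGH PGL

namespace Pool.Agent.DP.H76

/-- scaling in a homogeneous polynomial -/
theorem aeval_scale {k E σ : Type*} [Fintype σ] [CommRing k] [CommRing E] [Algebra k E] {d : ℕ}
    {A : MvPolynomial σ k} (hA : A.IsHomogeneous d) (y : σ → E) (c : E) :
    aeval (fun i => c * y i) A = c ^ d * aeval y A := by
  rw [aeval_def, aeval_def, eval₂_eq', eval₂_eq', Finset.mul_sum]
  refine Finset.sum_congr rfl fun m hm => ?_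
  have hdeg : ∑ i, m i = d := by
    by_contra h
    refine (mem_support_iff.1 hm) (hA.coeff_eq_zero ?_)
    rwa [Finsupp.degree_eq_sum]
  simp only [mul_pow]
  rw [Finset.prod_mul_distrib, Finset.prod_pow_eq_pow_sum, hdeg]
  ring

/-- the homogeneous parts vanish if the polynomial vanishes on a line through zero -/
theorem component_zero {k E σ : Type*} [Fintype σ] [CommRing k] [Field E] [Infinite E]
    [Algebra k E] (A : MvPolynomial σ k) (y : σ → E)
    (h : ∀ c : E, c ≠ 0 → aeval (fun i => c * y i) A = 0) (d : ℕ) :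
    aeval y (homogeneousComponent d A) = 0 := by
  obtain ⟨g, hg⟩ : ∃ g : Polynomial E, g = ∑ i ∈ Finset.range (A.totalDegree + 1),
    Polynomial.C (aeval y (homogeneousComponent i A)) * Polynomial.X ^ i := ⟨_, rfl⟩
  have h1 : ∀ c : E, g.eval c = aeval (fun i => c * y i) A := by
    intro c
    conv_rhs => rw [← sum_homogeneousComponent A]
    rw [map_sum, hg, Polynomial.eval_finsetSum]
    refine Finset.sum_congr rfl fun i _ => ?_
    rw [aeval_scale (homogeneousComponent_isHomogeneous i A) y c, Polynomial.eval_mul,
      Polynomial.eval_C, Polynomial.eval_pow, Polynomial.eval_X, mul_comm]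
  have h2 : g = 0 := by
    refine Polynomial.eq_zero_of_infinite_isRoot g ?_
    refine Set.Infinite.mono (s := {0}ᶜ) (fun c hc => ?_) (Set.finite_singleton (0 : E)).infinite_compl
    have : g.eval c = 0 := by
      rw [h1, h c hc]
    exact this
  by_cases hd : d < A.totalDegree + 1
  · have h3 : g.coeff d = aeval y (homogeneousComponent d A) := by
      rw [hg, Polynomial.finsetSum_coeff]
      rw [Finset.sum_eq_single d]
      · rw [Polynomial.coeff_C_mul, Polynomial.coeff_X_pow, if_pos rfl, mul_one]
      · intro b _ hb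
        rw [Polynomial.coeff_C_mul, Polynomial.coeff_X_pow, if_neg (Ne.symm hb), mul_zero]
      · intro h
        exact absurd (Finset.mem_range.2 hd) h
    rw [← h3, h2, Polynomial.coeff_zero]
  · rw [homogeneousComponent_eq_zero d A (by omega), map_zero]

/-- the jets of order zero are separated -/
noncomputable def split (k : Type*) [Field k] :
    MvPolynomial (Fin 3 × Fin 3) k →ₐ[k] MvPolynomial (Fin 2 × Fin 3) (MvPolynomial (Fin 3) k) :=
  aeval (fun x => (Fin.cases (C (X x.2)) (fun r => X (r, x.2)) x.1 :
    MvPolynomial (Fin 2 × Fin 3) (MvPolynomial (Fin 3) k)))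

/-- the inverse of `split` -/
noncomputable def unsplit (k : Type*) [Field k] :
    MvPolynomial (Fin 2 × Fin 3) (MvPolynomial (Fin 3) k) →+* MvPolynomial (Fin 3 × Fin 3) k :=
  eval₂Hom ((aeval (fun c => (X (0, c) : MvPolynomial (Fin 3 × Fin 3) k)) :
    MvPolynomial (Fin 3) k →ₐ[k] MvPolynomial (Fin 3 × Fin 3) k).toRingHom)
    (fun x => X (x.1.succ, x.2))

theorem unsplit_split {k : Type*} [Field k] (Q : MvPolynomial (Fin 3 × Fin 3) k) :
    unsplit k (split k Q) = Q := by
  induction Q using MvPolynomial.induction_on with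
  | C a =>
    have e1 : split k (C a) = C (C a) := by
      unfold split
      rw [aeval_C]
      rfl
    rw [e1]
    unfold unsplit
    rw [eval₂Hom_C]
    simp
  | add p q hp hq => rw [map_add, map_add, hp, hq]
  | mul_X p x hp =>
    have key : unsplit k (split k (X x)) = X x := by
      obtain ⟨r, c⟩ := x
      unfold split
      rw [aeval_X]
      refine Fin.cases ?_ (fun r => ?_) r
      · unfold unsplit
        simp
      · unfold unsplit
        simp
    rw [map_mul, map_mul, hp, key]

theorem eval_split {k E : Type*} [Field k] [Field E] [Algebra k E] (y : Fin 3 → E)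
    (z : Fin 2 × Fin 3 → E) (Q : MvPolynomial (Fin 3 × Fin 3) k) :
    eval z (map (aeval y : MvPolynomial (Fin 3) k →ₐ[k] E).toRingHom (split k Q)) =
      aeval (fun x => (Fin.cases (y x.2) (fun r => z (r, x.2)) x.1 : E)) Q := by
  induction Q using MvPolynomial.induction_on with
  | C a =>
    have e1 : split k (C a) = C (C a) := by
      unfold split
      rw [aeval_C]
      rfl
    rw [e1, map_C, eval_C, aeval_C]
    simp
  | add p q hp hq => rw [map_add, map_add, map_add, map_add, hp, hq]
  | mul_X p x hp =>
    have key : eval z (map (aeval y : MvPolynomial (Fin 3) k →ₐ[k] E).toRingHom (split k (X x))) =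
        (Fin.cases (y x.2) (fun r => z (r, x.2)) x.1 : E) := by
      obtain ⟨r, c⟩ := x
      unfold split
      rw [aeval_X]
      refine Fin.cases ?_ (fun r => ?_) r
      · simp
      · simp
    rw [map_mul, map_mul, map_mul, map_mul, hp, key, aeval_X]

theorem evP_spec {k E : Type*} [Field k] [Field E] [Algebra k E] {N : ℕ} (L : Fin N → Fin 3 → k)
    (Y : Fin 3 → Fin 3 → E) (P : Pol N) :
    evP (fun i c => algebraMap k E (L i c)) Y P = aeval (fun x => Y x.1 x.2) (spec L P) := by
  unfold evP spec
  induction P using MvPolynomial.induction_on with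
  | C a => simp
  | add p q hp hq => rw [map_add, map_add, map_add, hp, hq]
  | mul_X p x hp =>
    rw [map_mul, map_mul, map_mul, hp, aeval_X, aeval_X]
    rcases x with x | x
    · simp [vals]
    · simp [vals]

theorem exc : ExcStmt.{u} := by
  intro k _ _ N e m L P hInv hne
  obtain ⟨Q, hQ⟩ : ∃ Q, Q = spec L P := ⟨_, rfl⟩
  rw [← hQ] at hne
  have hs0 : split k Q ≠ 0 := by
    intro h
    apply hne
    rw [← unsplit_split Q, h, map_zero]
  obtain ⟨s, hs⟩ := exists_coeff_ne_zero hs0
  obtain ⟨A, hA⟩ : ∃ A, A = coeff s (split k Q) := ⟨_, rfl⟩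
  rw [← hA] at hs
  obtain ⟨d, hd⟩ : ∃ d, homogeneousComponent d A ≠ 0 := by
    by_contra hc
    push Not at hc
    apply hs
    rw [← sum_homogeneousComponent A]
    exact Finset.sum_eq_zero fun i _ => hc i
  refine ⟨d, homogeneousComponent d A, homogeneousComponent_isHomogeneous d A, hd, ?_⟩
  intro E _ _ y hv
  have hchar : CharZero E := charZero_of_injective_algebraMap (algebraMap k E).injective
  refine component_zero A y (fun c hc => ?_) d
  have h1 : ∀ p q : Fin 3 → E,
      evP (fun i c => algebraMap k E (L i c)) ![fun i => c * y i, p, q] P = 0 := by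
    intro p q
    have h2 := hInv E (fun i c => algebraMap k E (L i c)) ![y, fun i => c⁻¹ * p i,
      fun i => c⁻¹ * q i] c 1 0 0 0
    rw [hv, mul_zero] at h2
    rw [← h2]
    have hX : (![fun i => c * y i, p, q] : Fin 3 → Fin 3 → E) =
        chg c 1 0 0 0 ![y, fun i => c⁻¹ * p i, fun i => c⁻¹ * q i] := by
      funext i j
      unfold chg
      fin_cases i
      · simp
      · simp [hc]
      · simp [hc]
    rw [hX]
  have h3 : map (aeval (fun i => c * y i) : MvPolynomial (Fin 3) k →ₐ[k] E).toRingHom
      (split k Q) = 0 := by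
    refine MvPolynomial.funext fun z => ?_
    rw [eval_split, map_zero, hQ]
    have h4 := h1 (fun i => z (0, i)) (fun i => z (1, i))
    rw [evP_spec] at h4
    rw [← h4]
    have h6 : (fun x : Fin 3 × Fin 3 => (Fin.cases (c * y x.2) (fun r => z (r, x.2)) x.1 : E)) =
        fun x => (![fun i => c * y i, fun i => z (0, i), fun i => z (1, i)] :
          Fin 3 → Fin 3 → E) x.1 x.2 := by
      funext x
      obtain ⟨r, c⟩ := x
      fin_cases r
      · rfl
      · rfl
      · rfl
    rw [h6]
  have h5 := congrArg (coeff s) h3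
  rw [coeff_map, coeff_zero, ← hA] at h5
  exact h5

end Pool.Agent.DP.H76
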