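import Pool.Agent.Helper50_DP.Stmts
import Pool.Agent.Helper1_PGH.Ht

/-!
# Squad DP, module NODC: counting the nodes
-/

set_option autoImplicit false

universe u

open PGH PGL

namespace Pool.Agent.DP.H76

/-- the combinatorial inequality at one place -/
theorem local_count {N : ℕ} (e : Fin N → ℤ) (he : ∀ i, 0 ≤ e i)
    (h3 : ∀ i j l : Fin N, i ≠ j → l ≠ i → l ≠ j → ¬ (0 < e i ∧ 0 < e j ∧ 0 < e l))
    (n b : ℤ) (hn0 : 0 ≤ n) (hb0 : 0 ≤ b) (hn : ∀ i j : Fin N, i ≠ j → e i = 1 → e j = 1 → 1 ≤ n)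
    (hb : ¬ 1 ≤ b → ∀ i, e i = 1 → ∃ j, j ≠ i ∧ 0 < e j) :
    ∑ i, e i ≤ 2 * n + 3 * ∑ i, max 0 (e i - 1) + 2 * b := by
  classical
  obtain ⟨S, hS⟩ : ∃ S : Finset (Fin N), S = Finset.univ.filter (fun i => 0 < e i) := ⟨_, rfl⟩
  have hmem : ∀ i, i ∈ S ↔ 0 < e i := fun i => by rw [hS]; simp
  have h1 : ∑ i, e i = ∑ i ∈ S, e i := by
    symm
    refine Finset.sum_subset (Finset.subset_univ _) fun i _ hi => ?_
    rw [hmem] at hi
    have := he i
    omega
  have h2 : ∑ i, max 0 (e i - 1) = ∑ i ∈ S, max 0 (e i - 1) := by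
    symm
    refine Finset.sum_subset (Finset.subset_univ _) fun i _ hi => ?_
    rw [hmem] at hi
    have := he i
    omega
  rw [h1, h2]
  have hcard : S.card ≤ 2 := by
    by_contra hc
    obtain ⟨i, hi, j, hj, l, hl, h12, h13, h23⟩ := Finset.two_lt_card.1 (not_le.1 hc)
    exact h3 i j l h12 (Ne.symm h13) (Ne.symm h23) ⟨(hmem i).1 hi, (hmem j).1 hj, (hmem l).1 hl⟩
  have hcases : S.card = 0 ∨ S.card = 1 ∨ S.card = 2 := by omega
  rcases hcases with h | h | h
  · rw [Finset.card_eq_zero] at h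
    rw [h]
    simp only [Finset.sum_empty]
    omega
  · obtain ⟨i, hi⟩ := Finset.card_eq_one.1 h
    rw [hi]
    simp only [Finset.sum_singleton]
    have hpos : 0 < e i := (hmem i).1 (by rw [hi]; exact Finset.mem_singleton_self i)
    by_cases h1 : e i = 1
    · have hb1 : 1 ≤ b := by
        by_contra hb1
        obtain ⟨j, hji, hj⟩ := hb hb1 i h1
        have : j ∈ S := (hmem j).2 hj
        rw [hi, Finset.mem_singleton] at this
        exact hji this
      omega
    · omega
  · obtain ⟨i, j, hij, hS2⟩ := Finset.card_eq_two.1 h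
    rw [hS2, Finset.sum_pair hij, Finset.sum_pair hij]
    have hi : 0 < e i := (hmem i).1 (by rw [hS2]; simp)
    have hj : 0 < e j := (hmem j).1 (by rw [hS2]; simp)
    by_cases h1 : e i = 1 ∧ e j = 1
    · have := hn i j hij h1.1 h1.2
      omega
    · omega

section places

variable {k E : Type u} [Field k] [Field E] [Algebra k E]

theorem lin_ge {n : ℕ} {v : Place k E} {a : ℤ} {y : Fin n → E} (c : Fin n → k)
    (h : ∀ j, v.Ge a (y j)) : v.Ge a (lin c y) := by
  refine Place.Ge.sum fun j _ => ?_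
  exact (v.ge_const _).mul' (h j) (by omega)

/-- Cramer: three independent forms which are small force all coordinates to be small -/
theorem cramer_ge {v : Place k E} {a : ℤ} {y : Fin 3 → E} (A B C : Fin 3 → k)
    (hd : det3 A B C ≠ 0) (hA : v.Ge a (lin A y)) (hB : v.Ge a (lin B y))
    (hC : v.Ge a (lin C y)) (j : Fin 3) : v.Ge a (y j) := by
  obtain ⟨M, hM⟩ : ∃ M : Matrix (Fin 3) (Fin 3) k, M = Matrix.of ![A, B, C] := ⟨_, rfl⟩
  have h1 : ∀ i, v.Ge a (((M.map (algebraMap k E)).mulVec y) i) := by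
    intro i
    have e0 : ((M.map (algebraMap k E)).mulVec y) i = lin (M i) y := by
      simp [Matrix.mulVec, dotProduct, lin]
    rw [e0, hM]
    fin_cases i
    · exact hA
    · exact hB
    · exact hC
  have h2 : (M.adjugate.map (algebraMap k E)).mulVec ((M.map (algebraMap k E)).mulVec y) =
      (algebraMap k E M.det) • y := by
    rw [Matrix.mulVec_mulVec, ← Matrix.map_mul, Matrix.adjugate_mul]
    rw [Matrix.map_smul' _ _ _ (map_mul (algebraMap k E)), Matrix.map_one _ (map_zero _) (map_one _),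
      Matrix.smul_mulVec, Matrix.one_mulVec]
  have h3 : v.Ge a (algebraMap k E M.det * y j) := by
    have e1 : algebraMap k E M.det * y j =
        ∑ i, algebraMap k E (M.adjugate j i) * ((M.map (algebraMap k E)).mulVec y) i := by
      have := congrFun h2 j
      simp only [Pi.smul_apply, smul_eq_mul] at this
      rw [← this]
      rfl
    rw [e1]
    refine Place.Ge.sum fun i _ => ?_
    exact (v.ge_const (M.adjugate j i)).mul' (h1 i) (by omega)
  have hdM : M.det ≠ 0 := by
    rw [hM]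
    exact hd
  have e2 : y j = algebraMap k E M.det⁻¹ * (algebraMap k E M.det * y j) := by
    rw [← mul_assoc, ← map_mul, inv_mul_cancel₀ hdM, map_one, one_mul]
  rw [e2]
  exact (v.ge_const _).mul' h3 (by omega)

end places

theorem nodc : NodcStmt.{u} := by
  classical
  intro k E _ _ _ _ _ _ N L y α s₀ sb hL hN hloc hne htan
  have hfin : ∀ i : Fin N, ∃ s : Finset (Place k E), ∀ v ∉ s, v.ord (lin (L i) y) = 0 := by
    intro i
    refine ⟨(finite_support (L := k) (lin (L i) y)).toFinset, fun v hv => ?_⟩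
    by_contra h
    exact hv ((Set.Finite.mem_toFinset _).2 h)
  choose T hT using hfin
  have hge : ∀ (v : Place k E) i, α v ≤ v.ord (lin (L i) y) := fun v i =>
    (v.ge_iff (hne i)).1 (lin_ge (L i) (hloc.ge v))
  have h3 : ∀ (v : Place k E) (i j l : Fin N), i ≠ j → l ≠ i → l ≠ j →
      ¬ (0 < v.ord (lin (L i) y) - α v ∧ 0 < v.ord (lin (L j) y) - α v ∧
        0 < v.ord (lin (L l) y) - α v) := by
    rintro v i j l hij hli hlj ⟨h1, h2, h3⟩
    obtain ⟨c, hc⟩ := hloc.exact v
    refine hc (cramer_ge (L i) (L j) (L l) (hL i j l hij hli hlj) ?_ ?_ ?_ c)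
    · exact (v.ge_iff (hne i)).2 (by omega)
    · exact (v.ge_iff (hne j)).2 (by omega)
    · exact (v.ge_iff (hne l)).2 (by omega)
  obtain ⟨s₁, hs₁⟩ : ∃ s₁ : Finset (Place k E), s₁ = s₀ ∪ Finset.univ.biUnion T := ⟨_, rfl⟩
  have hsub : s₀ ⊆ s₁ := by
    rw [hs₁]
    exact Finset.subset_union_left
  have hout : ∀ v ∉ s₁, ∀ i, v.ord (lin (L i) y) = 0 := by
    intro v hv i
    refine hT i v fun h => hv ?_
    rw [hs₁]
    exact Finset.mem_union_right _ (Finset.mem_biUnion.2 ⟨i, Finset.mem_univ _, h⟩)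
  have hout' : ∀ v ∉ s₁, ∀ i, v.ord (lin (L i) y) = α v := by
    intro v hv i
    rw [hout v hv i, hloc.supp v fun h => hv (hsub h)]
  obtain ⟨sn, hsn⟩ : ∃ sn : Finset (Place k E), sn = s₁.filter (fun v =>
    ∃ i j : Fin N, i ≠ j ∧ v.ord (lin (L i) y) = α v + 1 ∧ v.ord (lin (L j) y) = α v + 1) :=
    ⟨_, rfl⟩
  refine ⟨s₁, sn, hsub, ?_, ?_, hout', ?_⟩
  · rw [hsn]
    exact Finset.filter_subset _ _
  · intro v hv
    rw [hsn, Finset.mem_filter] at hv
    exact hv.2
  · intro s hs
    have hz : ∀ i, ∑ v ∈ s, v.ord (lin (L i) y) = 0 := fun i =>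
      sum_ord_eq_zero _ s fun v hv => hout v (fun h => hv (hs h)) i
    have h5 : (N : ℤ) * (-∑ v ∈ s, α v) = ∑ v ∈ s, ∑ i, (v.ord (lin (L i) y) - α v) := by
      rw [Finset.sum_comm]
      simp only [Finset.sum_sub_distrib, hz]
      simp
    have h6 : ∀ v ∈ s, ∑ i, (v.ord (lin (L i) y) - α v) ≤
        2 * (if v ∈ sn then 1 else 0) + 3 * ∑ i, max 0 (v.ord (lin (L i) y) - α v - 1) +
          2 * (if v ∈ sb then 1 else 0) := by
      intro v _
      refine local_count (fun i => v.ord (lin (L i) y) - α v) (fun i => ?_) (h3 v) _ _ ?_ ?_ ?_ ?_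
      · have := hge v i
        omega
      · split_ifs <;> omega
      · split_ifs <;> omega
      · intro i j hij h1 h2
        have hv1 : v ∈ s₁ := by
          by_contra hv1
          have := hout' v hv1 i
          omega
        have hvn : v ∈ sn := by
          rw [hsn, Finset.mem_filter]
          exact ⟨hv1, i, j, hij, by omega, by omega⟩
        rw [if_pos hvn]
      · intro hb i hi
        have hvb : v ∉ sb := by
          intro h
          rw [if_pos h] at hb
          exact hb le_rfl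
        obtain ⟨j, hj, hj2⟩ := htan v hvb i (by omega)
        exact ⟨j, hj, by omega⟩
    have h7 := Finset.sum_le_sum h6
    rw [← h5, Finset.sum_add_distrib, Finset.sum_add_distrib, ← Finset.mul_sum, ← Finset.mul_sum,
      ← Finset.mul_sum, Finset.sum_boole, Finset.sum_boole] at h7
    have h8 : ((s.filter (fun v => v ∈ sn)).card : ℤ) ≤ sn.card := by
      exact_mod_cast Finset.card_le_card fun v hv => (Finset.mem_filter.1 hv).2
    have h9 : ((s.filter (fun v => v ∈ sb)).card : ℤ) ≤ sb.card := by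
      exact_mod_cast Finset.card_le_card fun v hv => (Finset.mem_filter.1 hv).2
    linarith

end Pool.Agent.DP.H76
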