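import Pool.Agent.Helper50_DP.Stmts

/-!
# Squad DP, module WRO: the Wronskian criterion for three functions
-/

set_option autoImplicit false

universe u

open PGH PGL

namespace Pool.Agent.DP.H76

section

variable {k E : Type u} [Field k] [Field E] [Algebra k E] (D : Derivation ℤ E E)

/-- a vector with `p i * D (p j) = p j * D (p i)` is constant up to a factor -/
theorem const_ratio (hker : ∀ w : E, D w = 0 → ∃ c : k, algebraMap k E c = w) (p : Fin 3 → E)
    (h : ∀ i j, p i * D (p j) = p j * D (p i)) (i : Fin 3) (hi : p i ≠ 0) :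
    ∃ c : Fin 3 → k, c i = 1 ∧ ∀ j, p j = algebraMap k E (c j) * p i := by
  have h1 : ∀ j, ∃ c : k, algebraMap k E c = p j / p i := by
    intro j
    refine hker _ ?_
    rw [Derivation.leibniz_div]
    have : p i • D (p j) - p j • D (p i) = 0 := by
      simp only [smul_eq_mul]
      rw [h i j, sub_self]
    rw [this, smul_zero]
  choose c hc using h1
  refine ⟨c, ?_, fun j => ?_⟩
  · have := hc i
    rw [div_self hi] at this
    exact (algebraMap k E).injective (by rw [this, map_one])
  · rw [hc j, div_mul_cancel₀ _ hi]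

end

theorem wro : WroStmt.{u} := by
  intro k E _ _ _ _ y D hk hker hdet
  obtain ⟨a, ha⟩ : ∃ a, a = y 0 := ⟨_, rfl⟩
  obtain ⟨b, hb⟩ : ∃ b, b = y 1 := ⟨_, rfl⟩
  obtain ⟨c, hc⟩ : ∃ c, c = y 2 := ⟨_, rfl⟩
  have hdet' : a * (D b * D (D c) - D (D b) * D c) - b * (D a * D (D c) - D (D a) * D c) +
      c * (D a * D (D b) - D (D a) * D b) = 0 := by
    rw [ha, hb, hc, ← hdet, Matrix.det_fin_three]
    simp only [Matrix.of_apply, Matrix.cons_val_zero, Matrix.cons_val_one, Matrix.cons_val]
    ring
  obtain ⟨p, hp⟩ : ∃ p : Fin 3 → E, p = ![b * D c - c * D b, c * D a - a * D c,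
    a * D b - b * D a] := ⟨_, rfl⟩
  have hp0 : p 0 = b * D c - c * D b := by rw [hp]; rfl
  have hp1 : p 1 = c * D a - a * D c := by rw [hp]; rfl
  have hp2 : p 2 = a * D b - b * D a := by rw [hp]; rfl
  have hd0 : D (p 0) = b * D (D c) - c * D (D b) := by
    rw [hp0, map_sub, D.leibniz, D.leibniz]
    simp only [smul_eq_mul]
    ring
  have hd1 : D (p 1) = c * D (D a) - a * D (D c) := by
    rw [hp1, map_sub, D.leibniz, D.leibniz]
    simp only [smul_eq_mul]
    ring
  have hd2 : D (p 2) = a * D (D b) - b * D (D a) := by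
    rw [hp2, map_sub, D.leibniz, D.leibniz]
    simp only [smul_eq_mul]
    ring
  have hpy : p 0 * a + p 1 * b + p 2 * c = 0 := by
    rw [hp0, hp1, hp2]
    ring
  by_cases hz : ∃ i, p i ≠ 0
  · obtain ⟨i, hi⟩ := hz
    have h01 : p 0 * D (p 1) = p 1 * D (p 0) := by
      rw [hd0, hd1, hp0, hp1]
      linear_combination c * hdet'
    have h02 : p 0 * D (p 2) = p 2 * D (p 0) := by
      rw [hd0, hd2, hp0, hp2]
      linear_combination (-b) * hdet'
    have h12 : p 1 * D (p 2) = p 2 * D (p 1) := by
      rw [hd1, hd2, hp1, hp2]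
      linear_combination a * hdet'
    have hall : ∀ i j, p i * D (p j) = p j * D (p i) := by
      intro i j
      fin_cases i <;> fin_cases j
      · rfl
      · exact h01
      · exact h02
      · exact h01.symm
      · rfl
      · exact h12
      · exact h02.symm
      · exact h12.symm
      · rfl
    obtain ⟨M, hM1, hM⟩ := const_ratio D hker p hall i hi
    refine ⟨M, fun h => ?_, ?_⟩
    · rw [h] at hM1
      exact zero_ne_one hM1
    · have h1 : p i * lin M y = 0 := by
        rw [← hpy, hM 0, hM 1, hM 2]
        unfold lin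
        rw [Fin.sum_univ_three, ← ha, ← hb, ← hc]
        ring
      exact (mul_eq_zero.1 h1).resolve_left hi
  · push Not at hz
    by_cases hy : ∃ i, y i ≠ 0
    · obtain ⟨i, hi⟩ := hy
      have h0 := hz 0
      have h1 := hz 1
      have h2 := hz 2
      rw [hp0, hb, hc] at h0
      rw [hp1, ha, hc] at h1
      rw [hp2, ha, hb] at h2
      have hall : ∀ i j, y i * D (y j) = y j * D (y i) := by
        intro i j
        fin_cases i <;> fin_cases j
        · rfl
        · exact sub_eq_zero.1 h2
        · exact (sub_eq_zero.1 h1).symm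
        · exact (sub_eq_zero.1 h2).symm
        · rfl
        · exact sub_eq_zero.1 h0
        · exact sub_eq_zero.1 h1
        · exact (sub_eq_zero.1 h0).symm
        · rfl
      obtain ⟨M, hM1, hM⟩ := const_ratio D hker y hall i hi
      obtain ⟨j, hj⟩ : ∃ j : Fin 3, j ≠ i := exists_ne i
      refine ⟨Pi.single j 1 - M j • Pi.single i 1, fun h => ?_, ?_⟩
      · have := congrFun h j
        simp [hj] at this
      · unfold lin
        simp only [Pi.sub_apply, Pi.smul_apply, smul_eq_mul, map_sub, map_mul, sub_mul,
          Finset.sum_sub_distrib]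
        have e1 : ∀ l : Fin 3, ∑ x, algebraMap k E ((Pi.single l 1 : Fin 3 → k) x) * y x = y l := by
          intro l
          rw [Finset.sum_eq_single l]
          · simp
          · intro b _ hb
            simp [hb]
          · simp
        have e2 : ∑ x, algebraMap k E (M j) * algebraMap k E ((Pi.single i 1 : Fin 3 → k) x) * y x =
            algebraMap k E (M j) * y i := by
          rw [← e1 i, Finset.mul_sum]
          refine Finset.sum_congr rfl fun x _ => ?_
          rw [mul_assoc]
        rw [e1 j, e2, hM j, sub_self]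
    · push Not at hy
      refine ⟨Pi.single 0 1, fun h => ?_, ?_⟩
      · have := congrFun h 0
        simp at this
      · unfold lin
        simp [hy]

end Pool.Agent.DP.H76
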